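import Pool.Agent.DPS.Stmts

/-!
# Squad DPS (MP_d97b4e_co), row MRC
-/

set_option autoImplicit false

namespace Pool.Agent.DPS.H10

open Finset

theorem M_eq (n k q : ℕ) (f : KS n k → ℝ) :
    M n k q f = ∑ R ∈ powersetCard q (univ : Finset (Fin n)), dg f R • star k R := by
  funext F
  rw [Finset.sum_apply]
  show ∑ R ∈ powersetCard q (univ : Finset (Fin n)), (if R ⊆ F.1 then (1 : ℝ) else 0) * dg f R = _
  refine sum_congr rfl fun R _ => ?_
  show (if R ⊆ F.1 then (1 : ℝ) else 0) * dg f R = dg f R * (if R ⊆ F.1 then (1 : ℝ) else 0)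
  rw [mul_comm]

theorem dg_insert (n k q : ℕ) (f : KS n k → ℝ) (S : Finset (Fin n)) (hS : S.card = q) :
    ∑ a ∈ univ \ S, dg f (insert a S) = ((k : ℝ) - q) * dg f S := by
  unfold dg
  rw [sum_comm, mul_sum]
  refine sum_congr rfl fun F _ => ?_
  by_cases h : S ⊆ F.1
  · rw [if_pos h]
    have h1 : ∀ a ∈ univ \ S, (if insert a S ⊆ F.1 then f F else 0) =
        if a ∈ F.1 then f F else 0 := by
      intro a _
      by_cases h2 : a ∈ F.1
      · rw [if_pos h2, if_pos (insert_subset h2 h)]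
      · rw [if_neg h2, if_neg fun h3 => h2 (h3 (mem_insert_self a S))]
    rw [sum_congr rfl h1, ← sum_filter, sum_const, nsmul_eq_mul]
    have h2 : (univ \ S).filter (fun a => a ∈ F.1) = F.1 \ S := by
      ext a
      simp only [mem_filter, mem_sdiff, mem_univ, true_and]
      tauto
    rw [h2, card_sdiff_of_subset h, F.2, hS, Nat.cast_sub]
    rw [← F.2, ← hS]
    exact card_le_card h
  · rw [if_neg h, mul_zero]
    refine sum_eq_zero fun a _ => ?_
    rw [if_neg fun h3 => h ((subset_insert a S).trans h3)]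

theorem mrc (hSTR : STRStmt) : MRCStmt := by
  intro n k r hr hrk f
  obtain ⟨c, hc⟩ : ∃ c : ℝ, c = (k : ℝ) - r + 1 := ⟨_, rfl⟩
  rw [← hc, M_eq n k r f, M_eq n k (r - 1) f, map_sum, smul_sum, ← sum_sub_distrib]
  have hA : ∀ R ∈ powersetCard r (univ : Finset (Fin n)),
      y n r • (dg f R • star k R) - Y n k (dg f R • star k R) =
        c • ∑ a ∈ R, dg f R • star k (R.erase a) := by
    intro R hR
    have hRc : R.card = r := (mem_powersetCard.mp hR).2
    rw [map_smul, hSTR n k R, hRc, ← hc, smul_sub, ← smul_sum, smul_comm (y n r) (dg f R),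
      smul_comm (dg f R) c]
    abel
  rw [sum_congr rfl hA, ← smul_sum]
  have hB : ∑ R ∈ powersetCard r (univ : Finset (Fin n)), ∑ a ∈ R, dg f R • star k (R.erase a) =
      ∑ S ∈ powersetCard (r - 1) (univ : Finset (Fin n)), ∑ a ∈ univ \ S,
        dg f (insert a S) • star k S := by
    rw [sum_sigma', sum_sigma']
    refine sum_bij' (fun p _ => ⟨p.1.erase p.2, p.2⟩) (fun p _ => ⟨insert p.2 p.1, p.2⟩)
      ?_ ?_ ?_ ?_ ?_
    · rintro ⟨R, a⟩ h
      rw [mem_sigma] at h ⊢
      obtain ⟨h1, h2⟩ := h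
      refine ⟨?_, ?_⟩
      · rw [mem_powersetCard]
        refine ⟨subset_univ _, ?_⟩
        show (R.erase a).card = r - 1
        rw [card_erase_of_mem h2, (mem_powersetCard.mp h1).2]
      · show a ∈ univ \ R.erase a
        simp
    · rintro ⟨S, a⟩ h
      rw [mem_sigma] at h ⊢
      obtain ⟨h1, h2⟩ := h
      have h3 : a ∉ S := (mem_sdiff.mp h2).2
      refine ⟨?_, ?_⟩
      · rw [mem_powersetCard]
        refine ⟨subset_univ _, ?_⟩
        show (insert a S).card = r
        rw [card_insert_of_notMem h3, (mem_powersetCard.mp h1).2]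
        omega
      · exact mem_insert_self a S
    · rintro ⟨R, a⟩ h
      rw [mem_sigma] at h
      show (⟨insert a (R.erase a), a⟩ : (_ : Finset (Fin n)) × Fin n) = ⟨R, a⟩
      rw [insert_erase h.2]
    · rintro ⟨S, a⟩ h
      rw [mem_sigma] at h
      show (⟨(insert a S).erase a, a⟩ : (_ : Finset (Fin n)) × Fin n) = ⟨S, a⟩
      rw [erase_insert (mem_sdiff.mp h.2).2]
    · rintro ⟨R, a⟩ h
      rw [mem_sigma] at h
      show dg f R • star k (R.erase a) = dg f (insert a (R.erase a)) • star k (R.erase a)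
      rw [insert_erase h.2]
  have hC : ∀ S ∈ powersetCard (r - 1) (univ : Finset (Fin n)),
      ∑ a ∈ univ \ S, dg f (insert a S) • star k S = c • (dg f S • star k S) := by
    intro S hS
    rw [← sum_smul, dg_insert n k (r - 1) f S (mem_powersetCard.mp hS).2, smul_smul]
    congr 2
    rw [hc, Nat.cast_sub hr]
    push_cast
    ring
  rw [hB, sum_congr rfl hC, ← smul_sum, smul_smul, pow_two]

end Pool.Agent.DPS.H10
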